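import Mathlib

set_option autoImplicit false

/-!
# Rich short intervals near squares: combinatorial part

`pic y h` is the number of primes in `(⌊y⌋, ⌊y + h⌋]`.
-/

namespace Pool.Agent.Zk38.Opp

open Finset

/-- the number of primes in `(y, y + h]` -/
noncomputable def pc (y h : ℝ) : ℕ := ((Ioc ⌊y⌋₊ ⌊y + h⌋₊).filter Nat.Prime).card

/-- every interval of length at least `n ^ (1 - δ)` inside `[n² - n, n² + n]` contains many primes -/
def Rich (c δ : ℝ) (n : ℕ) : Prop :=
  ∀ A X : ℕ, n ^ 2 - n ≤ A → A + X ≤ n ^ 2 + n → (n : ℝ) ^ (1 - δ) ≤ X →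
    c * X / Real.log n ≤ (((Ioc A (A + X)).filter Nat.Prime).card : ℝ)

lemma pieces (A m : ℕ) (h : ℝ) (hh : 0 ≤ h) :
    (∑ i ∈ range m, pc ((A : ℝ) + i * h) h : ℕ) =
      ((Ioc A ⌊(A : ℝ) + m * h⌋₊).filter Nat.Prime).card := by
  induction m with
  | zero => simp
  | succ m ih =>
    rw [sum_range_succ, ih, pc]
    have e : (A : ℝ) + m * h + h = (A : ℝ) + ((m + 1 : ℕ) : ℝ) * h := by push_cast; ring
    rw [e, ← card_union_of_disjoint]
    · congr 1
      rw [← filter_union]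
      congr 1
      apply Ioc_union_Ioc_eq_Ioc
      · rw [Nat.le_floor_iff (by positivity)]
        have : 0 ≤ (m : ℝ) * h := by positivity
        linarith
      · apply Nat.floor_le_floor
        push_cast
        nlinarith
    · apply disjoint_filter_filter
      rw [disjoint_left]
      intro x hx hx'
      rw [mem_Ioc] at hx hx'
      omega

/-- an interval with few primes contains a short interval with few primes -/
lemma poor {A X : ℕ} {h t : ℝ} (hh : 0 < h) (hX : h ≤ X) (ht : 0 ≤ t)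
    (hpoor : (((Ioc A (A + X)).filter Nat.Prime).card : ℝ) < t * X / (2 * h)) :
    ∃ y : ℝ, (A : ℝ) ≤ y ∧ y ≤ A + X ∧ (pc y h : ℝ) < t := by
  by_contra hcon
  push Not at hcon
  set m := ⌊(X : ℝ) / h⌋₊ with hm
  have hX0 : (0 : ℝ) ≤ X := Nat.cast_nonneg X
  have hm1 : (m : ℝ) ≤ X / h := Nat.floor_le (by positivity)
  have hm1' : (m : ℝ) * h ≤ X := by rwa [le_div_iff₀ hh] at hm1
  have hm2 : (X : ℝ) / h < m + 1 := Nat.lt_floor_add_one _
  have hm3 : (1 : ℝ) ≤ X / h := by rw [le_div_iff₀ hh]; linarith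
  have hm4 : 1 ≤ m := by rw [hm, Nat.one_le_floor_iff]; exact hm3
  have hm5 : (X : ℝ) / h ≤ 2 * m := by
    have : (1 : ℝ) ≤ m := by exact_mod_cast hm4
    linarith
  have h1 : (m : ℝ) * t ≤ ((∑ i ∈ range m, pc ((A : ℝ) + i * h) h : ℕ) : ℝ) := by
    push_cast
    calc (m : ℝ) * t = ∑ i ∈ range m, t := by simp
      _ ≤ _ := by
        apply sum_le_sum
        intro i hi
        rw [mem_range] at hi
        have hi' : (i : ℝ) + 1 ≤ m := by exact_mod_cast hi
        apply hcon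
        · have : 0 ≤ (i : ℝ) * h := by positivity
          linarith
        · nlinarith
  rw [pieces A m h hh.le] at h1
  have h2 : ((Ioc A ⌊(A : ℝ) + m * h⌋₊).filter Nat.Prime).card ≤ ((Ioc A (A + X)).filter Nat.Prime).card := by
    apply card_le_card
    apply filter_subset_filter
    apply Ioc_subset_Ioc_right
    have : (A : ℝ) + m * h ≤ ((A + X : ℕ) : ℝ) := by push_cast; linarith
    exact (Nat.floor_le_floor this).trans (by rw [Nat.floor_natCast])
  have h3 : (((Ioc A ⌊(A : ℝ) + m * h⌋₊).filter Nat.Prime).card : ℝ) ≤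
    (((Ioc A (A + X)).filter Nat.Prime).card : ℝ) := by exact_mod_cast h2
  have h4 : t * X / (2 * h) ≤ m * t := by
    rw [show t * (X : ℝ) / (2 * h) = t / 2 * (X / h) by field_simp]
    calc t / 2 * ((X : ℝ) / h) ≤ t / 2 * (2 * m) := by gcongr
      _ = _ := by ring
  linarith

/-- selection: bad numbers of one parity give separated points -/
lemma select {S : Finset ℕ} {h : ℝ} {P : ℝ → Prop} (par : ℕ)
    (hS : ∀ n ∈ S, n % 2 = par ∧ h ≤ 2 * n + 2 ∧ ∃ y : ℝ, (n : ℝ) ^ 2 - n ≤ y ∧ y ≤ (n : ℝ) ^ 2 + n ∧ P y)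
    (hh : 0 < h) :
    ∃ U : Finset ℝ, U.card = S.card ∧ (∀ y ∈ U, ∃ n ∈ S, (n : ℝ) ^ 2 - n ≤ y ∧ y ≤ (n : ℝ) ^ 2 + n ∧ P y) ∧
      ∀ y ∈ U, ∀ y' ∈ U, y ≠ y' → h ≤ |y - y'| := by
  classical
  choose! f hf using fun n hn => (hS n hn).2.2
  have key : ∀ n ∈ S, ∀ n' ∈ S, n < n' → h ≤ f n' - f n := by
    intro n hn n' hn' hlt
    have h1 := (hS n hn).1
    have h2 := (hS n' hn').1
    have h3 : n + 2 ≤ n' := by omega
    have h3' : (n : ℝ) + 2 ≤ n' := by exact_mod_cast h3
    have h4 := (hf n hn).2.1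
    have h5 := (hf n' hn').1
    have h6 := (hS n hn).2.1
    have hn0 : (0 : ℝ) ≤ n := Nat.cast_nonneg n
    nlinarith
  have inj : Set.InjOn f S := by
    intro n hn n' hn' he
    rcases lt_trichotomy n n' with hlt | heq | hgt
    · have := key n hn n' hn' hlt
      linarith
    · exact heq
    · have := key n' hn' n hn hgt
      linarith
  refine ⟨S.image f, card_image_of_injOn inj, ?_, ?_⟩
  · intro y hy
    obtain ⟨n, hn, rfl⟩ := mem_image.1 hy
    exact ⟨n, hn, hf n hn⟩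
  · intro y hy y' hy' hne
    obtain ⟨n, hn, rfl⟩ := mem_image.1 hy
    obtain ⟨n', hn', rfl⟩ := mem_image.1 hy'
    rcases lt_trichotomy n n' with hlt | heq | hgt
    · rw [abs_sub_comm]
      exact (key n hn n' hn' hlt).trans (le_abs_self _)
    · exact absurd (by rw [heq]) hne
    · exact (key n' hn' n hn hgt).trans (le_abs_self _)

end Pool.Agent.Zk38.Opp
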