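import Pool.Agent.Zk38.Opp.A

set_option autoImplicit false

/-!
# Rich short intervals near squares: the count of the exceptions
-/

namespace Pool.Agent.Zk38.Opp

open Finset

/-- the form of the theorem on poor intervals -/
def MP (lam0 e0 : ℝ) : Prop := ∃ c η Y₀ : ℝ, 0 < c ∧ 0 < η ∧ ∀ Y : ℝ, Y₀ ≤ Y → ∀ h : ℝ,
  Real.exp ((1 - lam0 - η) * Y) ≤ h → h ≤ Real.exp (0.9 * Y) → ∀ U : Finset ℝ,
  (∀ y ∈ U, 0 < y ∧ |Real.log y - Y| ≤ 2 / 5 ∧ (pc y h : ℝ) < c * h / Y) →
  (∀ y ∈ U, ∀ y' ∈ U, y ≠ y' → h ≤ |y - y'|) → (U.card : ℝ) ≤ Real.exp ((e0 - η) * Y)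

/-- one window, one parity -/
lemma window {c0 η0 η Y : ℝ} (hc0 : 0 < c0) (hη : 0 < η) (hηη : η ≤ η0) (hη1 : η ≤ 1 / 100)
    (hY : 0 < Y)
    (hM : ∀ h : ℝ, Real.exp ((1 - 1 / 2 - η0) * Y) ≤ h → h ≤ Real.exp (0.9 * Y) → ∀ U : Finset ℝ,
      (∀ y ∈ U, 0 < y ∧ |Real.log y - Y| ≤ 2 / 5 ∧ (pc y h : ℝ) < c0 * h / Y) →
      (∀ y ∈ U, ∀ y' ∈ U, y ≠ y' → h ≤ |y - y'|) → (U.card : ℝ) ≤ Real.exp ((0.306 - η0) * Y))
    (S : Finset ℕ) (par : ℕ)
    (hS : ∀ n ∈ S, n % 2 = par ∧ 10 ≤ n ∧ Y ≤ 2 * Real.log n ∧ 2 * Real.log n < Y + 1 / 5 ∧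
      ¬ Rich (c0 / 4) η n) :
    (S.card : ℝ) ≤ Real.exp ((0.306 - η) * Y) := by
  set h : ℝ := Real.exp ((1 / 2 - η) * Y) with hh
  have hh0 : 0 < h := Real.exp_pos _
  obtain ⟨U, hU1, hU2, hU3⟩ := select (S := S) (h := h) (P := fun y => (pc y h : ℝ) < c0 * h / Y) par
    (by
      intro n hn
      obtain ⟨h1, h2, h3, h4, h5⟩ := hS n hn
      have hn0 : (10 : ℝ) ≤ n := by exact_mod_cast h2
      have hnpos : (0 : ℝ) < n := by linarith
      have hlog : 0 < Real.log n := Real.log_pos (by linarith)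
      have hhn : h ≤ (n : ℝ) ^ (1 - 2 * η) := by
        rw [hh, Real.rpow_def_of_pos hnpos]
        apply Real.exp_le_exp.2
        nlinarith
      have hhn2 : h ≤ n := by
        refine hhn.trans ?_
        calc (n : ℝ) ^ (1 - 2 * η) ≤ (n : ℝ) ^ (1 : ℝ) := by
              apply Real.rpow_le_rpow_of_exponent_le (by linarith)
              linarith
          _ = n := Real.rpow_one _
      refine ⟨h1, by linarith, ?_⟩
      unfold Rich at h5
      push Not at h5
      obtain ⟨A, X, hA, hAX, hX, hpoor⟩ := h5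
      have hX' : h ≤ X := by
        refine hhn.trans (le_trans ?_ hX)
        apply Real.rpow_le_rpow_of_exponent_le (by linarith)
        linarith
      have hXpos : (0 : ℝ) ≤ X := Nat.cast_nonneg X
      obtain ⟨y, hy1, hy2, hy3⟩ := poor (A := A) (X := X) (h := h) (t := c0 * h / Y) hh0 hX' (by positivity)
        (by
          refine lt_of_lt_of_le hpoor ?_
          rw [show c0 * h / Y * (X : ℝ) / (2 * h) = c0 * X / (2 * Y) by field_simp]
          rw [show c0 / 4 * (X : ℝ) / Real.log n = c0 * X / (4 * Real.log n) by field_simp]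
          apply div_le_div_of_nonneg_left (by positivity) (by positivity)
          linarith)
      have hnn : n ≤ n ^ 2 := by nlinarith
      refine ⟨y, ?_, ?_, hy3⟩
      · have : ((n ^ 2 - n : ℕ) : ℝ) ≤ A := by exact_mod_cast hA
        rw [Nat.cast_sub hnn] at this
        push_cast at this
        linarith
      · have : ((A + X : ℕ) : ℝ) ≤ ((n ^ 2 + n : ℕ) : ℝ) := by exact_mod_cast hAX
        push_cast at this
        linarith) hh0
  have h1 := hM h (by rw [hh]; apply Real.exp_le_exp.2; nlinarith)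
    (by rw [hh]; apply Real.exp_le_exp.2; nlinarith) U (by
      intro y hy
      obtain ⟨n, hn, hy1, hy2, hy3⟩ := hU2 y hy
      obtain ⟨-, h2, h3, h4, -⟩ := hS n hn
      have hn0 : (10 : ℝ) ≤ n := by exact_mod_cast h2
      have hnpos : (0 : ℝ) < n := by linarith
      have hn1 : (0 : ℝ) < n - 1 := by linarith
      have hy0 : 0 < y := by nlinarith
      refine ⟨hy0, ?_, hy3⟩
      rw [abs_le]
      have e1 : (n : ℝ) ^ 2 - n = n * (n - 1) := by ring
      have e2 : (n : ℝ) ^ 2 + n = n * (n + 1) := by ring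
      have l1 : Real.log y ≤ Real.log n + Real.log (n + 1) := by
        rw [← Real.log_mul (by positivity) (by positivity)]
        apply Real.log_le_log hy0
        linarith
      have l2 : Real.log n + Real.log (n - 1) ≤ Real.log y := by
        rw [← Real.log_mul (by positivity) (by positivity)]
        apply Real.log_le_log (by positivity)
        linarith
      have l3 : Real.log (n + 1) ≤ Real.log n + 1 / 10 := by
        have : (n : ℝ) + 1 = n * (1 + 1 / n) := by field_simp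
        rw [this, Real.log_mul (by positivity) (by positivity)]
        have h5 := Real.log_le_sub_one_of_pos (show (0 : ℝ) < 1 + 1 / n by positivity)
        have h6 : (1 : ℝ) / n ≤ 1 / 10 := one_div_le_one_div_of_le (by norm_num) hn0
        linarith
      have l4 : Real.log n - 1 / 9 ≤ Real.log (n - 1) := by
        have : (n : ℝ) = (n - 1) * (1 + 1 / (n - 1)) := by field_simp; ring
        have h5 := Real.log_le_sub_one_of_pos (show (0 : ℝ) < 1 + 1 / ((n : ℝ) - 1) by positivity)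
        have h6 : (1 : ℝ) / (n - 1) ≤ 1 / 9 := one_div_le_one_div_of_le (by norm_num) (by linarith)
        have h7 : Real.log n = Real.log (n - 1) + Real.log (1 + 1 / ((n : ℝ) - 1)) := by
          rw [← Real.log_mul (by positivity) (by positivity), ← this]
        linarith
      constructor <;> linarith) hU3
  rw [hU1] at h1
  refine h1.trans (Real.exp_le_exp.2 ?_)
  nlinarith

open Classical in
/-- **The count of the exceptions** -/
theorem count (hMP : MP (1 / 2) 0.306) : ∃ c δ : ℝ, 0 < c ∧ 0 < δ ∧ δ ≤ 1 / 100 ∧ ∃ C : ℝ, ∀ N : ℕ,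
    (((Icc 1 N).filter (fun n => ¬ Rich c δ n)).card : ℝ) ≤ C * (N : ℝ) ^ (0.612 - δ) := by
  obtain ⟨c0, η0, Y0, hc0, hη0, hM⟩ := hMP
  set η := min η0 (1 / 100) with hη
  have hηpos : 0 < η := by rw [hη]; positivity
  have hηη : η ≤ η0 := min_le_left _ _
  have hη1 : η ≤ 1 / 100 := min_le_right _ _
  -- the bound for the small numbers
  obtain ⟨n0, hn0⟩ : ∃ n0 : ℕ, 10 ≤ n0 ∧ ∀ n : ℕ, n0 ≤ n → max Y0 1 + 1 ≤ 2 * Real.log n := by
    obtain ⟨m, hm⟩ := exists_nat_ge (Real.exp ((max Y0 1 + 1) / 2))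
    refine ⟨max m 10, le_max_right _ _, fun n hn => ?_⟩
    have h1 : Real.exp ((max Y0 1 + 1) / 2) ≤ n := hm.trans (by exact_mod_cast (le_max_left _ _).trans hn)
    have h2 := Real.log_le_log (Real.exp_pos _) h1
    rw [Real.log_exp] at h2
    linarith
  refine ⟨c0 / 4, η, by positivity, hηpos, hη1, n0 + 20 / η + 4, fun N => ?_⟩
  rcases Nat.eq_zero_or_pos N with hN | hN
  · subst hN
    simp only [Icc_eq_empty_of_lt (show (0 : ℕ) < 1 by norm_num), filter_empty, card_empty, Nat.cast_zero]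
    rw [Real.zero_rpow (by linarith)]
    simp
  have hN1 : (1 : ℝ) ≤ N := by exact_mod_cast hN
  have hNpos : (0 : ℝ) < N := by linarith
  have hlogN : 0 ≤ Real.log N := Real.log_nonneg hN1
  set J := ⌊10 * Real.log N⌋₊ with hJ
  set Sj : ℕ → ℕ → Finset ℕ := fun j par => (Icc 1 N).filter (fun n => n % 2 = par ∧ n0 ≤ n ∧
    (j : ℝ) / 5 ≤ 2 * Real.log n ∧ 2 * Real.log n < (j : ℝ) / 5 + 1 / 5 ∧ ¬ Rich (c0 / 4) η n) with hSj
  have hsub : (Icc 1 N).filter (fun n => ¬ Rich (c0 / 4) η n) ⊆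
      range n0 ∪ (range (J + 1)).biUnion (fun j => Sj j 0 ∪ Sj j 1) := by
    intro n hn
    rw [mem_filter, mem_Icc] at hn
    obtain ⟨⟨hn1, hn2⟩, hn3⟩ := hn
    by_cases hnn : n < n0
    · exact mem_union_left _ (mem_range.2 hnn)
    push Not at hnn
    apply mem_union_right
    rw [mem_biUnion]
    have hnpos : (1 : ℝ) ≤ n := by exact_mod_cast hn1
    have hl0 : 0 ≤ Real.log n := Real.log_nonneg hnpos
    refine ⟨⌊10 * Real.log n⌋₊, ?_, ?_⟩
    · rw [mem_range, Nat.lt_succ_iff]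
      apply Nat.floor_le_floor
      have := Real.log_le_log (by linarith) (show (n : ℝ) ≤ N by exact_mod_cast hn2)
      linarith
    · have h1 : ((⌊10 * Real.log n⌋₊ : ℕ) : ℝ) ≤ 10 * Real.log n := Nat.floor_le (by positivity)
      have h2 := Nat.lt_floor_add_one (10 * Real.log n)
      rw [mem_union]
      rcases Nat.mod_two_eq_zero_or_one n with h | h
      · left
        rw [hSj, mem_filter, mem_Icc]
        exact ⟨⟨hn1, hn2⟩, h, hnn, by linarith, by linarith, hn3⟩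
      · right
        rw [hSj, mem_filter, mem_Icc]
        exact ⟨⟨hn1, hn2⟩, h, hnn, by linarith, by linarith, hn3⟩
  have hwin : ∀ j ∈ range (J + 1), ∀ par : ℕ, ((Sj j par).card : ℝ) ≤ (N : ℝ) ^ (0.612 - 2 * η) := by
    intro j hj par
    rw [mem_range, Nat.lt_succ_iff] at hj
    rcases (Sj j par).eq_empty_or_nonempty with hemp | ⟨n, hn⟩
    · rw [hemp, card_empty, Nat.cast_zero]
      positivity
    have hn' := hn
    rw [hSj, mem_filter, mem_Icc] at hn
    obtain ⟨⟨hn1, hn2⟩, hp, hnn, hl1, hl2, -⟩ := hn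
    have hb := hn0.2 n hnn
    have hYY : max Y0 1 ≤ (j : ℝ) / 5 := by linarith
    have hY0 : Y0 ≤ (j : ℝ) / 5 := (le_max_left _ _).trans hYY
    have hY1 : 1 ≤ (j : ℝ) / 5 := (le_max_right _ _).trans hYY
    have h1 := window (Y := (j : ℝ) / 5) hc0 hηpos hηη hη1 (by linarith) (hM _ hY0) (Sj j par) par (by
      intro n hn
      rw [hSj, mem_filter, mem_Icc] at hn
      obtain ⟨-, h2, h3, h4, h5, h6⟩ := hn
      exact ⟨h2, hn0.1.trans h3, h4, h5, h6⟩)
    refine h1.trans ?_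
    rw [Real.rpow_def_of_pos hNpos]
    apply Real.exp_le_exp.2
    have hj' : (j : ℝ) ≤ 10 * Real.log N := (Nat.cast_le.2 hj).trans (Nat.floor_le (by positivity))
    nlinarith
  have hc1 : (((Icc 1 N).filter (fun n => ¬ Rich (c0 / 4) η n)).card : ℝ) ≤
      n0 + ∑ j ∈ range (J + 1), (((Sj j 0).card : ℝ) + (Sj j 1).card) := by
    have h1 := card_le_card hsub
    have h2 := (h1.trans (card_union_le _ _)).trans (Nat.add_le_add_left card_biUnion_le _)
    rw [card_range] at h2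
    have h3 : (((Icc 1 N).filter (fun n => ¬ Rich (c0 / 4) η n)).card : ℝ) ≤
      ((n0 + ∑ j ∈ range (J + 1), (Sj j 0 ∪ Sj j 1).card : ℕ) : ℝ) := by exact_mod_cast h2
    refine h3.trans ?_
    push_cast
    gcongr with j hj
    exact_mod_cast card_union_le _ _
  refine hc1.trans ?_
  have hc2 : ∑ j ∈ range (J + 1), (((Sj j 0).card : ℝ) + (Sj j 1).card) ≤
      ((J : ℝ) + 1) * (2 * (N : ℝ) ^ (0.612 - 2 * η)) := by
    calc _ ≤ ∑ j ∈ range (J + 1), (2 * (N : ℝ) ^ (0.612 - 2 * η)) := by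
          apply sum_le_sum
          intro j hj
          have h1 := hwin j hj 0
          have h2 := hwin j hj 1
          linarith
      _ = _ := by rw [sum_const, card_range, nsmul_eq_mul]; push_cast; ring
  have hJ1 : (J : ℝ) ≤ 10 * ((N : ℝ) ^ η / η) := by
    refine (Nat.floor_le (by positivity)).trans ?_
    have := Real.log_le_rpow_div hNpos.le hηpos
    linarith
  have hNη : (1 : ℝ) ≤ (N : ℝ) ^ η := Real.one_le_rpow hN1 hηpos.le
  have e1 : (N : ℝ) ^ (0.612 - η) = (N : ℝ) ^ η * (N : ℝ) ^ (0.612 - 2 * η) := by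
    rw [← Real.rpow_add hNpos]
    congr 1
    ring
  have hP : (1 : ℝ) ≤ (N : ℝ) ^ (0.612 - 2 * η) := Real.one_le_rpow hN1 (by linarith)
  have hQ : (1 : ℝ) ≤ (N : ℝ) ^ (0.612 - η) := Real.one_le_rpow hN1 (by linarith)
  calc (n0 : ℝ) + ∑ j ∈ range (J + 1), (((Sj j 0).card : ℝ) + (Sj j 1).card)
      ≤ n0 + (10 * ((N : ℝ) ^ η / η) + 1) * (2 * (N : ℝ) ^ (0.612 - 2 * η)) := by
        have : ((J : ℝ) + 1) * (2 * (N : ℝ) ^ (0.612 - 2 * η)) ≤
          (10 * ((N : ℝ) ^ η / η) + 1) * (2 * (N : ℝ) ^ (0.612 - 2 * η)) := by gcongr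
        linarith
    _ = n0 + 20 / η * ((N : ℝ) ^ η * (N : ℝ) ^ (0.612 - 2 * η)) + 2 * (N : ℝ) ^ (0.612 - 2 * η) := by
        field_simp
        ring
    _ ≤ n0 * (N : ℝ) ^ (0.612 - η) + 20 / η * (N : ℝ) ^ (0.612 - η) + 2 * (N : ℝ) ^ (0.612 - η) := by
        rw [← e1]
        have h1 : (n0 : ℝ) ≤ n0 * (N : ℝ) ^ (0.612 - η) := by
          have : (0 : ℝ) ≤ n0 := Nat.cast_nonneg _
          nlinarith
        have h2 : (N : ℝ) ^ (0.612 - 2 * η) ≤ (N : ℝ) ^ (0.612 - η) :=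
          Real.rpow_le_rpow_of_exponent_le hN1 (by linarith)
        linarith
    _ ≤ _ := by
        have : (0 : ℝ) ≤ (N : ℝ) ^ (0.612 - η) := by positivity
        nlinarith

end Pool.Agent.Zk38.Opp
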