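import Pool.Agent.Zk38.Opp.B
import Pool.Agent.Q278.KT.Fin
import Pool.Agent.X58.IV.Prm

set_option autoImplicit false

/-!
# Rich short intervals near squares, and narrow progressions of primes in them
-/

namespace Pool.Agent.Zk38.Opp

open Finset

theorem mp_half : MP (1 / 2) 0.306 := Pool.Agent.Q278.KT.mainp_half

/-- for a rich `n`, all dense sets of primes near `n ^ 2` contain narrow progressions -/
theorem ap_of_rich {c δ : ℝ} (hc : 0 < c) (hδ : 0 < δ) (hδ1 : δ ≤ 1 / 100) (k : ℕ) (ε : ℝ) (hε : 0 < ε) :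
    ∃ B n₁ : ℕ, ∀ n : ℕ, n₁ ≤ n → Rich c δ n → ∀ A X : ℕ, n ^ 2 - n ≤ A → A + X ≤ n ^ 2 + n →
      (n : ℝ) ^ (1 - δ) ≤ X → ∀ U ⊆ (Ioc A (A + X)).filter Nat.Prime,
      ε * (((Ioc A (A + X)).filter Nat.Prime).card : ℝ) ≤ U.card →
      ∃ a d : ℕ, 1 ≤ d ∧ (d : ℝ) ≤ Real.log n ^ B ∧ ∀ j < k, a + j * d ∈ U := by
  obtain ⟨B, X₀, hB⟩ := Pool.Agent.X58.IV.primes_ap k (ε * c / 2) (by positivity)
  obtain ⟨m, hm⟩ := exists_nat_ge (Real.exp 2)
  refine ⟨2 * B, max (X₀ ^ 2) (max m 4), fun n hn hR A X hA hAX hX U hU hc' => ?_⟩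
  have hn1 : X₀ ^ 2 ≤ n := (le_max_left _ _).trans hn
  have hn2 : m ≤ n := ((le_max_left _ _).trans (le_max_right _ _)).trans hn
  have hn3 : 4 ≤ n := ((le_max_right _ _).trans (le_max_right _ _)).trans hn
  have hn4 : (4 : ℝ) ≤ n := by exact_mod_cast hn3
  have hnpos : (0 : ℝ) < n := by linarith
  have hlog : 2 ≤ Real.log n := by
    have h1 : Real.exp 2 ≤ n := hm.trans (by exact_mod_cast hn2)
    have := Real.log_le_log (Real.exp_pos _) h1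
    rwa [Real.log_exp] at this
  have hX2 : (n : ℝ) ^ (1 / 2 : ℝ) ≤ X :=
    (Real.rpow_le_rpow_of_exponent_le (by linarith) (by linarith)).trans hX
  have hXpos : (0 : ℝ) < X := lt_of_lt_of_le (by positivity) hX2
  have hX0 : X₀ ≤ X := by
    have h1 : ((X₀ : ℝ) ^ 2) ≤ n := by exact_mod_cast hn1
    have h2 : (X₀ : ℝ) ≤ (n : ℝ) ^ (1 / 2 : ℝ) := by
      rw [← Real.sqrt_eq_rpow]
      exact Real.le_sqrt_of_sq_le h1
    exact_mod_cast h2.trans hX2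
  have hXn : X ≤ 2 * n := by omega
  have hXA : X ≤ A := by
    have : 3 * n ≤ n ^ 2 := by nlinarith
    omega
  have hXn' : (X : ℝ) ≤ 2 * n := by exact_mod_cast hXn
  have l1 : 1 / 2 * Real.log n ≤ Real.log X := by
    have := Real.log_le_log (by positivity) hX2
    rwa [Real.log_rpow hnpos] at this
  have l2 : Real.log X ≤ 2 * Real.log n := by
    have h1 : (X : ℝ) ≤ (n : ℝ) ^ 2 := by nlinarith
    have := Real.log_le_log hXpos h1
    rw [Real.log_pow] at this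
    exact_mod_cast this
  have h1 : (ε * c / 2) * X / Real.log X ≤ U.card := by
    refine le_trans ?_ hc'
    have h2 := hR A X hA hAX hX
    calc (ε * c / 2) * X / Real.log X ≤ (ε * c / 2) * X / (1 / 2 * Real.log n) := by
          apply div_le_div_of_nonneg_left (by positivity) (by positivity) l1
      _ = ε * (c * X / Real.log n) := by field_simp
      _ ≤ _ := by gcongr
  obtain ⟨a, d, h2, h3, h4⟩ := hB X A hX0 hXA U hU h1
  refine ⟨a, d, h2, h3.trans ?_, h4⟩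
  calc Real.log X ^ B ≤ (Real.log n ^ 2) ^ B := by
        apply pow_le_pow_left₀ (by linarith)
        nlinarith
    _ = _ := by rw [← pow_mul]

theorem main : ∃ c δ C : ℝ, 0 < c ∧ 0 < δ ∧ ∃ E : Set ℕ,
    (∀ N : ℕ, ((E ∩ Set.Icc 1 N).ncard : ℝ) ≤ C * (N : ℝ) ^ (0.612 - δ)) ∧
    (∀ n : ℕ, 1 ≤ n → n ∉ E → ∀ A X : ℕ, n ^ 2 - n ≤ A → A + X ≤ n ^ 2 + n →
      (n : ℝ) ^ (1 - δ) ≤ X →
      c * X / Real.log n ≤ (((Ioc A (A + X)).filter Nat.Prime).card : ℝ)) ∧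
    ∀ (k : ℕ) (ε : ℝ), 0 < ε → ∃ B n₁ : ℕ, ∀ n : ℕ, n₁ ≤ n → n ∉ E →
      ∀ A X : ℕ, n ^ 2 - n ≤ A → A + X ≤ n ^ 2 + n → (n : ℝ) ^ (1 - δ) ≤ X →
      ∀ U ⊆ (Ioc A (A + X)).filter Nat.Prime,
        ε * (((Ioc A (A + X)).filter Nat.Prime).card : ℝ) ≤ U.card →
        ∃ a d : ℕ, 1 ≤ d ∧ (d : ℝ) ≤ Real.log n ^ B ∧ ∀ j < k, a + j * d ∈ U := by
  classical
  obtain ⟨c, δ, hc, hδ, hδ1, C, hC⟩ := count mp_half
  refine ⟨c, δ, C, hc, hδ, {n : ℕ | 1 ≤ n ∧ ¬ Rich c δ n}, fun N => ?_, ?_, fun k ε hε => ?_⟩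
  · refine le_trans ?_ (hC N)
    have h1 : ({n : ℕ | 1 ≤ n ∧ ¬ Rich c δ n} ∩ Set.Icc 1 N) ⊆
        (((Icc 1 N).filter (fun n => ¬ Rich c δ n) : Finset ℕ) : Set ℕ) := by
      rintro n ⟨⟨_, h2⟩, h3⟩
      rw [Finset.mem_coe, mem_filter, mem_Icc]
      exact ⟨⟨h3.1, h3.2⟩, h2⟩
    have h2 := Set.ncard_le_ncard h1 (Finset.finite_toSet _)
    rw [Set.ncard_coe_finset] at h2
    exact_mod_cast h2
  · intro n hn hE
    have hR : Rich c δ n := by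
      by_contra hcon
      exact hE ⟨hn, hcon⟩
    exact hR
  · obtain ⟨B, n₁, hB⟩ := ap_of_rich hc hδ hδ1 k ε hε
    refine ⟨B, max n₁ 1, fun n hn hE => ?_⟩
    have hR : Rich c δ n := by
      by_contra hcon
      exact hE ⟨(le_max_right _ _).trans hn, hcon⟩
    intro A X hA hAX hX U hU hc'
    exact hB n ((le_max_left _ _).trans hn) hR A X hA hAX hX U hU hc'

end Pool.Agent.Zk38.Opp
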