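import Pool.Agent.Zk38.Opp.C

set_option autoImplicit false

/-!
# The exceptional set of the theorem on primes near squares, in a form suited for transfers
-/

namespace Pool.Agent.Zk38.Opp

open Finset

/-- the exceptional set -/
def Ex (c δ : ℝ) : Set ℕ := {n | 1 ≤ n ∧ ¬ Rich c δ n}

open Classical in
theorem data : ∃ c δ : ℝ, 0 < c ∧ 0 < δ ∧ δ ≤ 1 / 100 ∧ ∀ ε : ℝ, 0 < ε → ∃ C : ℝ, ∀ X : ℕ, 1 ≤ X →
    (((Ioc 0 X).filter (fun t => t ∈ Ex c δ)).card : ℝ) ≤ C * (X : ℝ) ^ (0.612 - δ + ε) := by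
  obtain ⟨c, δ, hc, hδ, hδ1, C, hC⟩ := count mp_half
  refine ⟨c, δ, hc, hδ, hδ1, fun ε hε => ⟨|C|, fun X hX => ?_⟩⟩
  have hX1 : (1 : ℝ) ≤ X := by exact_mod_cast hX
  have h1 : ((Ioc 0 X).filter (fun t => t ∈ Ex c δ)).card ≤ ((Icc 1 X).filter (fun n => ¬ Rich c δ n)).card := by
    apply card_le_card
    intro t ht
    rw [mem_filter, mem_Ioc] at ht
    rw [mem_filter, mem_Icc]
    exact ⟨⟨ht.2.1, ht.1.2⟩, ht.2.2⟩
  calc (((Ioc 0 X).filter (fun t => t ∈ Ex c δ)).card : ℝ)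
      ≤ (((Icc 1 X).filter (fun n => ¬ Rich c δ n)).card : ℝ) := by exact_mod_cast h1
    _ ≤ C * (X : ℝ) ^ (0.612 - δ) := by convert hC X
    _ ≤ |C| * (X : ℝ) ^ (0.612 - δ) := by gcongr; exact le_abs_self C
    _ ≤ |C| * (X : ℝ) ^ (0.612 - δ + ε) := by
        gcongr
        linarith

end Pool.Agent.Zk38.Opp
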